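import Pool.Agent.R885.W9

/-!
Pairs which have a common finite cover with a variety for which the dimensions are equal.
-/

set_option autoImplicit false
set_option linter.overlappingInstances false
set_option linter.unusedSectionVars false
set_option linter.unusedVariables false

open FF IntermediateField Pool.Agent.W602.GT Pool.Agent.W619.PQ Pool.Agent.W619.TW
  Pool.Agent.W603.LV Pool.Agent.W672.PG Pool.Agent.W824.PG Pool.Agent.Y172 Pool.Agent.Y191
  Pool.Agent.Y174 Pool.Agent.R885.N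

namespace Pool.Agent.K4H25.LC

/-- **Commensurable pairs.** -/
theorem commens {n : ℕ} {K L M : Type} [Field K] [Field L] [Field M]
    [Algebra ℂ K] [Algebra ℂ L] [Algebra ℂ M] [Algebra K M] [Algebra L M] [IsScalarTower ℂ K M]
    [IsScalarTower ℂ L M] [FiniteDimensional K M] [FiniteDimensional L M]
    (htr : Algebra.trdeg ℂ L = (n : ℕ)) (hess : Algebra.EssFiniteType ℂ L) {b : Place ℂ L → ℚ}
    (h : PosB ℂ L n (fun P => ((b P : ℚ) : ℝ)) ∨ NegB ℂ L n (fun P => ((b P : ℚ) : ℝ)))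
    {N : ℕ} {y : Fin (N + 1) → K} {Δ : Place ℂ K → ℚ} (hy : IsCommensurable M b y n Δ) :
    EqualDims y n Δ := by
  classical
  choose e v hv using fun w : Place ℂ M => Pool.Agent.W73.PG.PULL.exists_over' (K := L) w
  have hessM : Algebra.EssFiniteType ℂ M := w6_ess (K := L) hess
  have htrM : Algebra.trdeg ℂ M = (n : ℕ) := w6_trdeg (K := L) htr
  have htrK : Algebra.trdeg ℂ K = (n : ℕ) := by
    have h1 := trdeg_add_eq ℂ K (A := M)
    have h2 : Algebra.trdeg K M = 0 := trdeg_eq_zero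
    rw [h2, add_zero, htrM] at h1
    exact h1
  obtain ⟨z', hz'⟩ := Pool.Agent.W636.PG.exists_basis ℂ K n htrK
  have hessK : Algebra.EssFiniteType ℂ K := ess_down hessM z' hz'
  obtain ⟨β, hβ⟩ : ∃ β : Place ℂ M → ℚ, β = fun w => 1 - (e w : ℚ) * (1 - b (v w)) := ⟨_, rfl⟩
  have hβ' : ∀ u, IsDivisorial u n → ∀ (w : Place ℂ M) e', LiesOn w u e' →
      (fun P => ((β P : ℚ) : ℝ)) w = 1 - e' * (1 - (fun P => ((b P : ℚ) : ℝ)) u) := by
    intro u hu w e' hw
    obtain ⟨h1, h2⟩ := over_uniq hw (hv w)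
    rw [hβ]
    beta_reduce
    rw [h1, h2]
    push_cast
    ring
  obtain ⟨k1, k2, k3⟩ := fin_all (K := L) (L := M) hess htr hβ'
  have hpb : IsPulledBack β y n Δ := by
    refine ⟨hy.normal, hy.effective, ?_, ?_⟩
    · intro P hP P' e' hP'
      rw [hβ]
      beta_reduce
      rw [hy.mult P hP P' (v P') e' (e P') hP' (hv P')]
    · intro P hP P' e' hP'
      rw [hβ]
      beta_reduce
      rw [sub_sub_cancel]
      exact hy.disc P hP P' (v P') e' (e P') hP' (hv P')
  obtain ⟨δ, d1, d2, d3, d4, d5⟩ := pulled_data hessK htrK hpb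
  refine equalB (β := δ) htrK ?_ hy.normal hy.effective d4 d5
  rcases h with ⟨d, hd, h1, h2⟩ | h1
  · exact Or.inl ⟨d, hd, d1 d ((k1 d).2 h1), d2 d ((k2 d).2 h2)⟩
  · exact Or.inr (d3 (k3.2 h1))

end Pool.Agent.K4H25.LC
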